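import Pool.Agent.Helper53.CTR.Goals

/-!
# PROJECT CTR (MP_8b4d68_lc), packet AS: asymptotics
-/

namespace Pool.Agent.Helper36.CTR

open Pool.Agent.Helper53.CTR

theorem log_Pb (b : ℕ) (hb : 1 ≤ b) : Nat.log 2 (Pb b) ≤ Nat.log 2 b + 5 := by
  have h1 : Pb b ≤ b * 2 ^ 5 := by
    unfold Pb Rb
    omega
  calc Nat.log 2 (Pb b) ≤ Nat.log 2 (b * 2 ^ 5) := Nat.log_mono_right h1
    _ = Nat.log 2 b + 5 := by
      rw [Nat.pow_succ, Nat.pow_succ, Nat.pow_succ, Nat.pow_succ, Nat.pow_one]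
      simp only [← mul_assoc]
      rw [Nat.log_mul_base (by norm_num) (by positivity), Nat.log_mul_base (by norm_num) (by positivity),
        Nat.log_mul_base (by norm_num) (by positivity), Nat.log_mul_base (by norm_num) (by positivity),
        Nat.log_mul_base (by norm_num) (by omega)]

theorem log_Gb (b : ℕ) : Nat.log 2 (Gb b) ≤ 6 := by
  have h1 : Pb b / Rb b ≤ 100 := by
    have h2 : Pb b ≤ 100 * Rb b := by
      unfold Pb Rb
      omega
    rcases Nat.eq_zero_or_pos (Rb b) with h3 | h3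
    · rw [h3, Nat.div_zero]
      exact Nat.zero_le _
    · exact Nat.div_le_of_le_mul (by rw [mul_comm]; exact h2)
  have h2 : Gb b < 2 ^ 7 := by
    unfold Gb
    omega
  have h0 : Gb b ≠ 0 := Nat.succ_ne_zero _
  have h3 : Nat.log 2 (Gb b) < 7 := Nat.log_lt_of_lt_pow h0 h2
  omega

theorem Et_le (C h q b c : ℕ) (hh : 1 ≤ h) (hq : 1 ≤ q) (hb : 1 ≤ b)
    (hC : q * b * Nat.log 2 b + h * c ≤ C * (h * q)) :
    Et h q b c + 1 ≤ (217 * C + 271) * (h * q) := by
  have hl := log_Pb b hb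
  have hg := log_Gb b
  set l := Nat.log 2 b with hldef
  -- `b l ≤ C h`
  have h1 : b * l ≤ C * h := by
    have h2 : q * (b * l) ≤ q * (C * h) := by
      calc q * (b * l) = q * b * l := by ring
        _ ≤ C * (h * q) := le_trans (Nat.le_add_right _ _) hC
        _ = q * (C * h) := by ring
    exact Nat.le_of_mul_le_mul_left h2 (by omega)
  have h2 : b ≤ b * l + 1 := by
    rcases Nat.lt_or_ge b 2 with h3 | h3
    · omega
    · have h4 : 1 ≤ l := by
        rw [hldef]
        exact Nat.log_pos (by norm_num) h3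
      have h5 : b * 1 ≤ b * l := Nat.mul_le_mul_left _ h4
      omega
  have h3 : b ≤ (C + 1) * h := by
    calc b ≤ b * l + 1 := h2
      _ ≤ C * h + h := by omega
      _ = (C + 1) * h := by ring
  have hE : Eb b ≤ (42 * C + 36) * h := by
    unfold Eb
    calc (4 * b + 2) * (Nat.log 2 (Pb b) + 1) ≤ (6 * b) * (l + 6) :=
          Nat.mul_le_mul (by omega) (by omega)
      _ = 6 * (b * l) + 36 * b := by ring
      _ ≤ 6 * (C * h) + 36 * ((C + 1) * h) := by gcongr
      _ = (42 * C + 36) * h := by ring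
  have hF : Fb h b ≤ 14 * h := by
    unfold Fb
    calc (h + 1) * (Nat.log 2 (Gb b) + 1) ≤ (2 * h) * 7 := Nat.mul_le_mul (by omega) (by omega)
      _ = 14 * h := by ring
  have hhq : h ≤ h * q := Nat.le_mul_of_pos_right _ (by omega)
  have hhq1 : 1 ≤ h * q := Nat.one_le_iff_ne_zero.2 (Nat.mul_ne_zero (by omega) (by omega))
  have hc : h * c ≤ C * (h * q) := le_trans (Nat.le_add_left _ _) hC
  have k1 : (2 * q + 3) * (Eb b + Fb h b) ≤ (210 * C + 250) * (h * q) := by
    calc (2 * q + 3) * (Eb b + Fb h b) ≤ (5 * q) * ((42 * C + 36) * h + 14 * h) :=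
          Nat.mul_le_mul (by omega) (by omega)
      _ = (210 * C + 250) * (h * q) := by ring
  have k2 : 4 * Nt h q ≤ 12 * (h * q) := by
    unfold Nt
    calc 4 * (h * (q + 2)) = 4 * (h * q) + 8 * h := by ring
      _ ≤ 12 * (h * q) := by omega
  have k3 : 4 * b ≤ (4 * C + 4) * (h * q) := by
    calc 4 * b ≤ 4 * ((C + 1) * h) := by omega
      _ = (4 * C + 4) * h := by ring
      _ ≤ (4 * C + 4) * (h * q) := Nat.mul_le_mul_left _ hhq
  have k4 : c * (h + 2) ≤ 3 * C * (h * q) := by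
    calc c * (h + 2) ≤ c * (3 * h) := Nat.mul_le_mul_left _ (by omega)
      _ = 3 * (h * c) := by ring
      _ ≤ 3 * (C * (h * q)) := by omega
      _ = 3 * C * (h * q) := by ring
  unfold Et
  calc (2 * q + 3) * (Eb b + Fb h b) + 4 * Nt h q + 4 * b + c * (h + 2) + 4 + 1 ≤
        (210 * C + 250) * (h * q) + 12 * (h * q) + (4 * C + 4) * (h * q) + 3 * C * (h * q) +
          5 * (h * q) := by omega
    _ = (217 * C + 271) * (h * q) := by ring

theorem natlog_le {n : ℕ} (hn : 1 ≤ n) :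
    ((Nat.log 2 (n + 1) + 5 : ℕ) : ℝ) ≤ 2 * Real.log n + 6 := by
  have hl2 : (0.6931471803 : ℝ) < Real.log 2 := Real.log_two_gt_d9
  have hn' : (1 : ℝ) ≤ n := by exact_mod_cast hn
  have hlog0 : 0 ≤ Real.log n := Real.log_nonneg hn'
  have h1 : (2 : ℝ) ^ (Nat.log 2 (n + 1)) ≤ (n : ℝ) + 1 := by
    have := Nat.pow_log_le_self 2 (x := n + 1) (by omega)
    exact_mod_cast this
  have h2 : (Nat.log 2 (n + 1) : ℝ) * Real.log 2 ≤ Real.log 2 + Real.log n := by
    rw [← Real.log_mul (by norm_num) (by positivity), ← Real.log_pow]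
    apply Real.log_le_log (by positivity)
    linarith
  have h3 : (Nat.log 2 (n + 1) : ℝ) ≤ 1 + 2 * Real.log n := by
    by_contra hcon
    push Not at hcon
    nlinarith
  push_cast
  linarith

theorem gAS : GoalAS := by
  constructor
  · intro C
    refine ⟨2 * (217 * C + 271), by positivity, ?_⟩
    intro ok w h q b c hf hC
    obtain ⟨⟨_, _, hh, hq, hb, _, _⟩, hlen⟩ := hf
    have h1 := Et_le C h q b c hh hq hb hC
    have hl2 : (0.6931471803 : ℝ) < Real.log 2 := Real.log_two_gt_d9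
    have h2 : ((h * q : ℕ) : ℝ) * Real.log 2 ≤ Real.log w.length := by
      rw [← Real.log_pow]
      exact Real.log_le_log (by positivity) (by exact_mod_cast hlen.le)
    have hhq : (0 : ℝ) ≤ ((h * q : ℕ) : ℝ) := Nat.cast_nonneg _
    have h3 : ((h * q : ℕ) : ℝ) ≤ 2 * Real.log w.length := by nlinarith
    have h4 : ((Et h q b c + 1 : ℕ) : ℝ) ≤ (217 * C + 271) * ((h * q : ℕ) : ℝ) := by
      exact_mod_cast h1
    have hK : (0 : ℝ) ≤ 217 * C + 271 := by positivity
    calc ((Et h q b c + 1 : ℕ) : ℝ) ≤ (217 * C + 271) * ((h * q : ℕ) : ℝ) := h4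
      _ ≤ (217 * C + 271) * (2 * Real.log w.length) := mul_le_mul_of_nonneg_left h3 hK
      _ ≤ 2 * (217 * C + 271) * (Real.log w.length + 1) := by nlinarith
  · refine ⟨6, by norm_num, fun n => ?_⟩
    rcases Nat.lt_or_ge n 1 with h0 | h1
    · have hn : n = 0 := by omega
      subst hn
      norm_num
    · have hb := natlog_le h1
      have hlog0 : 0 ≤ Real.log n := Real.log_nonneg (by exact_mod_cast h1)
      linarith

end Pool.Agent.Helper36.CTR
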